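import Pool.Agent.helper64.TP.SpecG1
import Pool.Agent.helper75.DP.GBP
/-!
# Project sp, port part: the blocks of coins form a partition (module BKP)
-/

namespace TP

open DP

theorem BKP_zero (N m K : ℕ) : bk N m K 0 = LaF N \ blkL m K := by
  unfold bk
  rw [if_pos rfl]

theorem BKP_pos {N m K n : ℕ} (hn : n ≠ 0) : bk N m K n = blk N m K n := by
  unfold bk
  rw [if_neg hn]

theorem BKP_of (hG : GBP_stmt) : BKP_stmt := by
  intro N m K hm hK hKN
  obtain ⟨h1, h2, h3, h4, h5⟩ := hG N m K hm hK hKN.le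
  have hDL : DqF N ⊆ LaF N := Finset.subset_union_left
  have hsub : ∀ i, i ≠ 0 → i ≤ K ^ 2 → bk N m K i ⊆ blkL m K := by
    intro i hi hiK
    rw [BKP_pos hi]
    exact (h4 i (Nat.one_le_iff_ne_zero.2 hi) hiK).1
  have h0 : Disjoint (bk N m K 0) (blkL m K) := by
    rw [BKP_zero]
    exact Finset.sdiff_disjoint
  refine ⟨?_, ?_, ?_, ?_, h0⟩
  · intro i hiK
    by_cases hi : i = 0
    · subst hi
      obtain ⟨⟨v, hv⟩, hs⟩ := h1 0 hiK
      rw [BKP_zero]
      refine ⟨⟨v, Finset.mem_sdiff.2 ⟨hDL (hs hv), fun h => ?_⟩⟩, Finset.sdiff_subset⟩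
      exact (Finset.disjoint_left.1 h5) hv h
    · rw [BKP_pos hi]
      exact ⟨(h1 i hiK).1, (h1 i hiK).2.trans hDL⟩
  · intro i hi j hj hij
    by_cases hi0 : i = 0
    · subst hi0
      exact h0.mono_right (hsub j (fun h => hij h.symm) hj)
    · by_cases hj0 : j = 0
      · subst hj0
        exact (h0.mono_right (hsub i hi0 hi)).symm
      · rw [BKP_pos hi0, BKP_pos hj0]
        exact h2 i hi j hj hij
  · intro v hv
    by_cases hb : v ∈ blkL m K
    · have hvD : v ∈ DqF N := by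
        rw [GBP_mem_DqF]
        unfold blkL at hb
        simp only [Finset.mem_product, Finset.mem_Icc] at hb
        have h6 : (K * m : ℤ) ≤ 4 * N := by exact_mod_cast hKN.le
        omega
      obtain ⟨i, hiK, hi⟩ := h3 v hvD
      refine ⟨i, hiK, ?_⟩
      have hi0 : i ≠ 0 := by
        rintro rfl
        exact (Finset.disjoint_left.1 h5) hi hb
      rw [BKP_pos hi0]
      exact hi
    · refine ⟨0, Nat.zero_le _, ?_⟩
      rw [BKP_zero]
      exact Finset.mem_sdiff.2 ⟨hv, hb⟩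
  · intro i hi1 hiK
    rw [BKP_pos (Nat.one_le_iff_ne_zero.1 hi1)]
    exact h4 i hi1 hiK

theorem BKP : BKP_stmt := BKP_of GBP

end TP
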