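import Pool.Agent.helper55.DP.BOTH
import Pool.Agent.helper64.TP.SpecE
import Pool.Agent.helper64.TP.Basic
/-!
# Project dp, part E: arms standard at both ends (module BOTH)
-/

namespace TP

open DP

theorem BOTH_ev_mono {p q : (V → Bool) → Prop} (h : ∀ c, p c → q c) : Ev p ⊆ Ev q :=
  fun _ hb => h _ hb

/-- BOTH: arms standard at both ends. -/
theorem BOTH (hSEPI : SEPI_stmt) (hSEPO : SEPO_stmt) (hMF : MF_stmt) (hMM : MM_stmt)
    (hLB : LB_stmt) (hSE1 : SE1_stmt) (hFA : FA_stmt) (hAM : AM_stmt) (hBmono : Bmono_stmt) :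
    BOTH_stmt := by
  obtain ⟨b₀, hb₀, iL, hL⟩ := hLB
  obtain ⟨c₁, hc₁, iE, hE⟩ := hSE1
  obtain ⟨C₁, hC₁, iI, hI⟩ := hSEPI b₀ hb₀
  obtain ⟨C₂, hC₂, iO, hO⟩ := hSEPO (c₁ * b₀) (mul_pos hc₁ hb₀)
  refine ⟨C₁ * C₂, mul_pos hC₁ hC₂, iL + iE + iI + iO + 8, ?_⟩
  intro j ρ x a b hj hρ hx ha hab
  have h64 : 64 ≤ 2 ^ (a - 1) := by
    calc 64 = 2 ^ 6 := by norm_num
      _ ≤ 2 ^ (a - 1) := Nat.pow_le_pow_right (by norm_num) (by omega)
  have ha1 : 2 ^ a = 2 * 2 ^ (a - 1) := by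
    rw [← pow_succ']
    congr 1
    omega
  have hlt : ∀ i, i < b → 2 ^ i < 2 ^ b := fun i hi => Nat.pow_lt_pow_right (by norm_num) hi
  -- step A
  have hA : Q ρ (Ev fun c => ar j c x (2 ^ a) (2 ^ b)) (Ev fun c => ar j c x (2 ^ a) (2 ^ b)) ≤
      C₁ * Q ρ (Ev fun c => Std c j false x (2 ^ (a - 1)) (Dfree false x (2 ^ b)))
        (Ev fun c => Std c j false x (2 ^ (a - 1)) (Dfree false x (2 ^ b))) := by
    have hsub : (Ev fun c => ar j c x (2 ^ a) (2 ^ b)) ⊆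
        Ev fun c => Fam c j false x (2 ^ a) (Dfree false x (2 ^ b)) :=
      BOTH_ev_mono fun c h =>
        ((hFA c j x (2 ^ a) (2 ^ b) hj hx Nat.one_le_two_pow (hlt a (by omega))).2).2 h
    refine (hBmono ρ _ _ _ _ hsub hsub).trans ?_
    have hok : (Dfree false x (2 ^ b)).ok false x (2 ^ (b - 1 + 1)) := by
      have : b - 1 + 1 = b := by omega
      rw [this]
      exact BOTH_dfree_ok x (2 ^ b)
    refine hI j ρ x (Dfree false x (2 ^ b)) (b - 1) hj hρ hx (by omega) hok ?_ ?_ a (by omega)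
      (by omega)
    · intro c i _ hi h
      have h1 := (hFA c j x (2 ^ i) (2 ^ b) hj hx Nat.one_le_two_pow (hlt i (by omega))).2
      have h2 := (hFA c j x (2 ^ (i + 1)) (2 ^ b) hj hx Nat.one_le_two_pow
        (hlt (i + 1) (by omega))).2
      exact h2.2 (hAM c j x (2 ^ i) (2 ^ (i + 1)) (2 ^ b) (2 ^ b) hj
        (Nat.pow_le_pow_right (by norm_num) (by omega)) (hlt (i + 1) (by omega)).le le_rfl
        (h1.1 h))
    · have h1 := (hL j ρ x (b - 2) hj hρ hx (by omega)).2.2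
      have e1 : b - 2 + 2 = b := by omega
      have e2 : b - 1 - 1 = b - 2 := by omega
      rw [e1] at h1
      rw [e2]
      exact h1
  -- step B
  have hB : Q ρ (Ev fun c => Std c j false x (2 ^ (a - 1)) (Dfree false x (2 ^ b)))
        (Ev fun c => Std c j false x (2 ^ (a - 1)) (Dfree false x (2 ^ b))) ≤
      Q ρ (Ev fun c => Fam c j true x (2 ^ b) (Dmark j x (2 ^ (a - 1))))
        (Ev fun c => Fam c j true x (2 ^ b) (Dmark j x (2 ^ (a - 1)))) := by
    have hsub : (Ev fun c => Std c j false x (2 ^ (a - 1)) (Dfree false x (2 ^ b))) ⊆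
        Ev fun c => Fam c j true x (2 ^ b) (Dmark j x (2 ^ (a - 1))) :=
      BOTH_ev_mono fun c h => (hMF c j x (2 ^ (a - 1)) (2 ^ b) hj hx h64
        (by rw [← ha1]; exact (hlt a (by omega)).le)).2 h
    exact hBmono ρ _ _ _ _ hsub hsub
  -- step C
  have hokm : (Dmark j x (2 ^ (a - 1))).ok true x (2 ^ a) := by
    rw [ha1]
    exact BOTH_dmark_ok j x (2 ^ (a - 1))
  have hC : Q ρ (Ev fun c => Fam c j true x (2 ^ b) (Dmark j x (2 ^ (a - 1))))
        (Ev fun c => Fam c j true x (2 ^ b) (Dmark j x (2 ^ (a - 1)))) ≤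
      C₂ * Q ρ (Ev fun c => Std c j true x (2 ^ (b + 1)) (Dmark j x (2 ^ (a - 1))))
        (Ev fun c => Std c j true x (2 ^ (b + 1)) (Dmark j x (2 ^ (a - 1)))) := by
    refine hO j ρ x (Dmark j x (2 ^ (a - 1))) (a + 1) hj hρ hx (by omega) hokm ?_ ?_ b (by omega)
    · intro c i hi h
      refine hMM c j x (2 ^ (a - 1)) (2 ^ i) (2 ^ (i + 1)) hj hx h64 ?_
        (Nat.pow_le_pow_right (by norm_num) (by omega)) h
      rw [← ha1]
      exact Nat.pow_le_pow_right (by norm_num) (by omega)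
    · have h1 := (hL j ρ x (a - 1) hj hρ hx (by omega)).2.1
      have e1 : a - 1 + 2 = a + 1 := by omega
      rw [e1] at h1
      have h2 := hE j true ρ x (Dmark j x (2 ^ (a - 1))) Set.univ (a + 1) hj hρ hx
        (by omega) (by simpa using hokm)
        (by unfold Extra; rw [if_pos rfl]; exact Loc.univ _)
      have e2 : nx true (2 ^ (a + 1)) = 2 ^ (a + 1 + 1) := by
        simp [nx, pow_succ']
      rw [e2, Set.univ_inter, Set.univ_inter] at h2
      exact (mul_le_mul_of_nonneg_left h1 hc₁.le).trans h2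
  calc Q ρ (Ev fun c => ar j c x (2 ^ a) (2 ^ b)) (Ev fun c => ar j c x (2 ^ a) (2 ^ b))
      ≤ C₁ * Q ρ (Ev fun c => Std c j false x (2 ^ (a - 1)) (Dfree false x (2 ^ b)))
        (Ev fun c => Std c j false x (2 ^ (a - 1)) (Dfree false x (2 ^ b))) := hA
    _ ≤ C₁ * (C₂ * Q ρ (Ev fun c => Std c j true x (2 ^ (b + 1)) (Dmark j x (2 ^ (a - 1))))
        (Ev fun c => Std c j true x (2 ^ (b + 1)) (Dmark j x (2 ^ (a - 1))))) :=
      mul_le_mul_of_nonneg_left (hB.trans hC) hC₁.le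
    _ = C₁ * C₂ * Q ρ (Ev fun c => Std c j true x (2 ^ (b + 1)) (Dmark j x (2 ^ (a - 1))))
        (Ev fun c => Std c j true x (2 ^ (b + 1)) (Dmark j x (2 ^ (a - 1)))) := by ring

end TP
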